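import Mathlib
import Pool.Agent.U514.MU.W
import Pool.Agent.U286.LY.LDef

/-!
# Random word circuits: the mean width if the gate graphs are rarely universal
-/

set_option autoImplicit false

open Finset

namespace Pool.Agent.U514.DSM

open Pool.Agent.Y631.Wc (WCirc)
open Pool.Agent.U514.PD.W (gateGraph)
open Pool.Agent.U514.PD (log_small)
open Pool.Agent.U514.MU
open Pool.Agent.U286.LY (mean WidthLE)

variable {ι X Z Ω : Type}

/-- The trivial tree decomposition. -/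
theorem tw_size (C : WCirc ι X Z) : C.TreewidthLE C.size := by
  refine ⟨0, id, fun _ => univ, fun i hi => absurd hi (by
    rw [Fin.fin_one_eq_zero i]; exact lt_irrefl _), ?_, ?_,
    fun h g _ => ⟨0, mem_univ _, mem_univ _⟩⟩
  · intro i
    rw [card_univ, Fintype.card_fin]
    exact Nat.le_succ _
  · intro v
    refine ⟨0, ⟨mem_univ _, Or.inl rfl⟩, fun y _ => Fin.fin_one_eq_zero y⟩

open Classical in
/-- The mean width. -/
theorem exists_width [Fintype Ω] (p : Ω → ℝ) (hp : ∀ ω, 0 ≤ p ω) (hp1 : ∑ ω, p ω = 1)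
    (C : Ω → WCirc ι X Z) (G : Ω → Prop) (c₀ : ℝ) (s : ℕ)
    (h : ∀ ω, ¬ G ω → ∃ θ, (C ω).TreewidthLE θ ∧ (θ : ℝ) + 1 ≤ c₀) (hs : ∀ ω, (C ω).size ≤ s)
    (hc₀ : 0 ≤ c₀) :
    ∃ c : Ω → ℕ, (∀ ω, WidthLE (C ω) (c ω)) ∧
      mean p c ≤ c₀ + (∑ ω with G ω, p ω) * (s + 1) := by
  have hex : ∀ ω, ∃ c : ℕ, WidthLE (C ω) c ∧ (c : ℝ) ≤ c₀ + if G ω then (s : ℝ) + 1 else 0 := by
    intro ω
    by_cases hG : G ω
    · refine ⟨s + 1, Or.inl ⟨(C ω).size, tw_size _, Nat.succ_le_succ (hs ω)⟩, ?_⟩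
      rw [if_pos hG]
      push_cast
      linarith
    · obtain ⟨θ, h1, h2⟩ := h ω hG
      refine ⟨θ + 1, Or.inl ⟨θ, h1, le_rfl⟩, ?_⟩
      rw [if_neg hG]
      push_cast
      linarith
  choose c hc1 hc2 using hex
  refine ⟨c, hc1, ?_⟩
  unfold mean
  calc ∑ ω, p ω * (c ω : ℝ) ≤ ∑ ω, p ω * (c₀ + if G ω then (s : ℝ) + 1 else 0) :=
        sum_le_sum fun ω _ => mul_le_mul_of_nonneg_left (hc2 ω) (hp ω)
    _ = c₀ + (∑ ω with G ω, p ω) * (s + 1) := by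
        have e1 : ∑ ω, p ω * (if G ω then (s : ℝ) + 1 else 0) =
            (∑ ω with G ω, p ω) * (s + 1) := by
          rw [sum_mul, sum_filter]
          refine sum_congr rfl fun ω _ => ?_
          by_cases hG : G ω <;> simp [hG]
        rw [sum_congr rfl fun ω _ => mul_add (p ω) c₀ (if G ω then (s : ℝ) + 1 else 0),
          sum_add_distrib, ← sum_mul, hp1, one_mul, e1]

open Classical in
/-- The probability that the gate graph is universal. -/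
noncomputable def universalProb [Fintype Ω] (p : Ω → ℝ) (C : Ω → WCirc ι X Z) (M d : ℕ) : ℝ :=
  ∑ ω with Universal (gateGraph (C ω)) M d, p ω

/-- The mean width of random circuits with at most `s` gates. -/
theorem width_universal [Fintype Ω] (p : Ω → ℝ) (hp : ∀ ω, 0 ≤ p ω) (hp1 : ∑ ω, p ω = 1)
    (C : Ω → WCirc ι X Z) {M d s : ℕ} (hM : 1 ≤ M) (hs : ∀ ω, (C ω).size ≤ s)
    (hd : 4 * (Nat.log 2 s + 1) * s ≤ M * d ^ 2) :
    ∃ c : Ω → ℕ, (∀ ω, WidthLE (C ω) (c ω)) ∧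
      mean p c ≤ 28 + 24 * Real.sqrt (M * (Nat.log 2 s + 1) * s) +
        universalProb p C M d * (s + 1) := by
  classical
  refine exists_width p hp hp1 C (fun ω => Universal (gateGraph (C ω)) M d) _ s ?_ hs
    (by positivity)
  intro ω hω
  have h0 : Nat.log 2 (C ω).size ≤ Nat.log 2 s := Nat.log_mono_right (hs ω)
  obtain ⟨θ, h1, h2⟩ := treewidth_of_not_universal (C ω) (by omega) (d := d) (by
    refine le_trans ?_ hd
    have := hs ω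
    gcongr) hω
  refine ⟨θ, h1, ?_⟩
  have h3 : M * (Nat.log 2 (C ω).size + 1) * (C ω).size ≤ M * (Nat.log 2 s + 1) * s := by
    have := hs ω
    gcongr
  have h4 : (θ : ℝ) + 1 ≤ 24 * ((Nat.sqrt (M * (Nat.log 2 s + 1) * s) : ℝ) + 1) + 4 := by
    have : θ + 1 ≤ 24 * (Nat.sqrt (M * (Nat.log 2 s + 1) * s) + 1) + 4 :=
      h2.trans (by have := Nat.sqrt_le_sqrt h3; omega)
    exact_mod_cast this
  have h5 : (Nat.sqrt (M * (Nat.log 2 s + 1) * s) : ℝ) ≤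
      Real.sqrt (M * (Nat.log 2 s + 1) * s) := by
    have := Real.nat_sqrt_le_real_sqrt (a := M * (Nat.log 2 s + 1) * s)
    push_cast at this
    exact this
  linarith

/-- The gate graph contains every graph with at most `K` vertices and edges as a minor with branch
sets of radius at most `ρ`. -/
def AllMinors (C : WCirc ι X Z) (K : ℝ) (ρ : ℕ) : Prop :=
  ∀ (W : Type) [Fintype W] (H : SimpleGraph W), (Fintype.card W : ℝ) ≤ K →
    (H.edgeSet.ncard : ℝ) ≤ K → HasMinor (gateGraph C) H ρ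

open Classical in
/-- The probability that the gate graph contains all small graphs. -/
noncomputable def minorProb [Fintype Ω] (p : Ω → ℝ) (C : Ω → WCirc ι X Z) (K : ℝ) (ρ : ℕ) : ℝ :=
  ∑ ω with AllMinors (C ω) K ρ, p ω

/-- Exponent form. -/
theorem width_minors (η ε : ℝ) (hη : 0 ≤ η) (hε : 0 < ε) (hηε : η + ε ≤ 1) :
    ∃ n₀ : ℕ, ∀ n ≥ n₀, ∀ {ι X Z Ω : Type} [Fintype Ω] (p : Ω → ℝ), (∀ ω, 0 ≤ p ω) →
      ∑ ω, p ω = 1 → ∀ C : Ω → WCirc ι X Z, (∀ ω, ((C ω).size : ℝ) ≤ (n : ℝ) ^ (1 + η)) →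
      minorProb p C ((n : ℝ) ^ (1 - η - ε)) ⌊(n : ℝ) ^ (η + ε)⌋₊ ≤ (n : ℝ) ^ (-(η + ε)) →
      ∃ c : Ω → ℕ, (∀ ω, WidthLE (C ω) (c ω)) ∧ mean p c ≤ (n : ℝ) ^ (1 - ε / 7) := by
  classical
  obtain ⟨n₁, hn₁⟩ := (w_minors η ε hη hε hηε).exists_forall_of_atTop
  obtain ⟨n₂, hn₂⟩ := (log_small 4 1 (ε / 42) (by positivity)).exists_forall_of_atTop
  refine ⟨max (max n₁ n₂) 1, fun n hn ι X Z Ω _ p hp hp1 C hs hP => ?_⟩
  have hnn₁ : n₁ ≤ n := ((le_max_left _ _).trans (le_max_left _ _)).trans hn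
  have hnn₂ : n₂ ≤ n := ((le_max_right _ _).trans (le_max_left _ _)).trans hn
  have hn1 : (1 : ℝ) ≤ n := by exact_mod_cast (le_max_right _ _).trans hn
  have hn0 : (0 : ℝ) < n := by linarith
  have h4 : (4 : ℝ) ≤ (n : ℝ) ^ (ε / 42) := by
    refine le_trans ?_ (hn₂ n hnn₂)
    have : (1 : ℝ) ≤ (((Nat.log 2 n : ℕ) : ℝ) + 1) ^ 1 := by
      rw [pow_one]
      have : (0 : ℝ) ≤ ((Nat.log 2 n : ℕ) : ℝ) := Nat.cast_nonneg _
      linarith
    linarith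
  obtain ⟨c, hc1, hc2⟩ := exists_width p hp hp1 C
    (fun ω => AllMinors (C ω) ((n : ℝ) ^ (1 - η - ε)) ⌊(n : ℝ) ^ (η + ε)⌋₊)
    ((n : ℝ) ^ (1 - ε / 6) + 1) ⌊(n : ℝ) ^ (1 + η)⌋₊ (by
      intro ω hω
      by_contra hcon
      push Not at hcon
      apply hω
      intro W _ H hW hE
      refine hn₁ n hnn₁ (C ω) (hs ω) (fun θ hθ hθ2 => ?_) W H hW hE
      have := hcon θ hθ
      linarith) (fun ω => Nat.le_floor (hs ω)) (by positivity)
  refine ⟨c, hc1, hc2.trans ?_⟩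
  have e1 : (⌊(n : ℝ) ^ (1 + η)⌋₊ : ℝ) ≤ (n : ℝ) ^ (1 + η) := Nat.floor_le (by positivity)
  have e2 : (1 : ℝ) ≤ (n : ℝ) ^ (1 + η) := Real.one_le_rpow hn1 (by linarith)
  have e3 : (∑ ω with AllMinors (C ω) ((n : ℝ) ^ (1 - η - ε)) ⌊(n : ℝ) ^ (η + ε)⌋₊, p ω) ≤
      (n : ℝ) ^ (-(η + ε)) := hP
  have e4 : (n : ℝ) ^ (-(η + ε)) * (2 * (n : ℝ) ^ (1 + η)) = 2 * (n : ℝ) ^ (1 - ε) := by
    rw [mul_left_comm, ← Real.rpow_add hn0]
    congr 2
    ring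
  have e5 : (n : ℝ) ^ (1 - ε) ≤ (n : ℝ) ^ (1 - ε / 6) :=
    Real.rpow_le_rpow_of_exponent_le hn1 (by linarith)
  have e6 : (1 : ℝ) ≤ (n : ℝ) ^ (1 - ε / 6) := Real.one_le_rpow hn1 (by linarith)
  have e7 : (∑ ω with AllMinors (C ω) ((n : ℝ) ^ (1 - η - ε)) ⌊(n : ℝ) ^ (η + ε)⌋₊, p ω) *
      (⌊(n : ℝ) ^ (1 + η)⌋₊ + 1) ≤ (n : ℝ) ^ (-(η + ε)) * (2 * (n : ℝ) ^ (1 + η)) := by
    apply mul_le_mul e3 (by linarith) (by positivity) (by positivity)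
  have e8 : (4 : ℝ) * (n : ℝ) ^ (1 - ε / 6) ≤ (n : ℝ) ^ (ε / 42) * (n : ℝ) ^ (1 - ε / 6) :=
    mul_le_mul_of_nonneg_right h4 (by positivity)
  have e9 : (n : ℝ) ^ (ε / 42) * (n : ℝ) ^ (1 - ε / 6) = (n : ℝ) ^ (1 - ε / 7) := by
    rw [← Real.rpow_add hn0]
    congr 1
    ring
  rw [e9] at e8
  linarith

end Pool.Agent.U514.DSM
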